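import Pool.Agent.X275.GZ.ZMod
import Pool.Agent.X275.GZ.Summ

/-!
# A graph whose class counting zeta function has abscissa `25/2`

For the complete graph on four vertices with a pendant edge at each vertex (8 vertices, 10 edges)
the abscissa of convergence of the class counting zeta function of the graphical group scheme over
`ℤ` is `25/2`, which is not an integer.
-/

set_option autoImplicit false

open NumberField

namespace Pool.Agent.Results.MP_2f42a7_al.HalfIntegralAbscissa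

open Pool.Agent.X275.GZ

/-- The term of the class counting zeta function of `G_Γ ⊗ 𝓞_K` at the nonzero ideal `I`:
`k(G_Γ(𝓞_K / I)) |𝓞_K : I| ^ (-σ)`. -/
noncomputable def zetaTerm (K : Type) [Field K] [NumberField K] {V : Type} [LinearOrder V]
    (Γ : SimpleGraph V) (σ : ℝ) (I : {I : Ideal (𝓞 K) // I ≠ ⊥}) : ℝ :=
  (Nat.card (ConjClasses (GG Γ (𝓞 K ⧸ I.1))) : ℝ) * (Nat.card (𝓞 K ⧸ I.1) : ℝ) ^ (-σ)

/-- The abscissa of convergence of the class counting zeta function of `G_Γ ⊗ 𝓞_K`. -/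
noncomputable def abscissa (K : Type) [Field K] [NumberField K] {V : Type} [LinearOrder V]
    (Γ : SimpleGraph V) : ℝ :=
  sInf {σ : ℝ | Summable (zetaTerm K Γ σ)}

/-- The nonzero ideal of `𝓞_ℚ` generated by `n`. -/
noncomputable def idl (n : ℕ+) : {I : Ideal (𝓞 ℚ) // I ≠ ⊥} :=
  ⟨(Ideal.span {((n : ℕ) : ℤ)}).comap Rat.ringOfIntegersEquiv.toRingHom, by
    intro h
    have h1 : Rat.ringOfIntegersEquiv.symm ((n : ℕ) : ℤ) ∈
        (Ideal.span {((n : ℕ) : ℤ)}).comap Rat.ringOfIntegersEquiv.toRingHom := by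
      rw [Ideal.mem_comap]
      apply Ideal.subset_span
      simp
    rw [h, Ideal.mem_bot] at h1
    simp at h1⟩

/-- The quotient by `idl n`. -/
noncomputable def quotEquiv (n : ℕ+) : (𝓞 ℚ ⧸ (idl n).1) ≃+* ZMod (n : ℕ) :=
  (Ideal.quotientEquiv (idl n).1 (Ideal.span {((n : ℕ) : ℤ)}) Rat.ringOfIntegersEquiv (by
    exact (Ideal.map_comap_of_surjective _ Rat.ringOfIntegersEquiv.surjective _).symm)).trans
    (Int.quotientSpanNatEquivZMod (n : ℕ))

lemma card_quot (n : ℕ+) : Nat.card (𝓞 ℚ ⧸ (idl n).1) = n := by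
  rw [Nat.card_congr (quotEquiv n).toEquiv, Nat.card_eq_fintype_card, ZMod.card]

lemma idl_bijective : Function.Bijective idl := by
  constructor
  · intro m n h
    have h1 := card_quot m
    rw [h, card_quot n] at h1
    exact PNat.coe_injective h1.symm
  · rintro ⟨I, hI⟩
    obtain ⟨a, ha⟩ := (IsPrincipalIdealRing.principal
      (I.map Rat.ringOfIntegersEquiv.toRingHom)).principal
    have hmap : (I.map Rat.ringOfIntegersEquiv.toRingHom) = Ideal.span {a} := ha
    have hI2 : I = (Ideal.span {a}).comap Rat.ringOfIntegersEquiv.toRingHom := by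
      rw [← hmap]
      exact (Ideal.comap_map_of_bijective _ Rat.ringOfIntegersEquiv.bijective).symm
    have ha0 : a ≠ 0 := by
      rintro rfl
      apply hI
      rw [hI2, eq_bot_iff]
      intro x hx
      rw [Ideal.mem_comap, Ideal.mem_span_singleton, zero_dvd_iff] at hx
      have h3 : Rat.ringOfIntegersEquiv x = 0 := hx
      rw [Ideal.mem_bot]
      exact (map_eq_zero_iff _ Rat.ringOfIntegersEquiv.injective).mp h3
    refine ⟨⟨a.natAbs, Int.natAbs_pos.mpr ha0⟩, ?_⟩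
    apply Subtype.ext
    show (Ideal.span {((a.natAbs : ℕ) : ℤ)}).comap Rat.ringOfIntegersEquiv.toRingHom = I
    rw [hI2, Int.span_natAbs]

/-- The number of solutions, as a function on the natural numbers. -/
noncomputable def fn (τ : ℝ) (n : ℕ) : ℝ :=
  if n = 0 then 0 else (Nat.card (Sol G8 (ZMod n)) : ℝ) * (n : ℝ) ^ (-τ)

lemma fn_pos (τ : ℝ) {n : ℕ} (hn : n ≠ 0) :
    fn τ n = (Nat.card (Sol G8 (ZMod n)) : ℝ) * (n : ℝ) ^ (-τ) := if_neg hn

lemma fn_nonneg (τ : ℝ) (n : ℕ) : 0 ≤ fn τ n := by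
  rw [fn]
  split_ifs
  · exact le_rfl
  · positivity

lemma zetaTerm_idl (σ : ℝ) (n : ℕ+) : zetaTerm ℚ G8 σ (idl n) = fn (σ - 2) n := by
  have hn : (n : ℕ) ≠ 0 := n.ne_zero
  have hfin : Finite (𝓞 ℚ ⧸ (idl n).1) := by
    apply Nat.finite_of_card_ne_zero
    rw [card_quot]
    exact hn
  rw [zetaTerm, fn_pos _ hn, card_conj8, card_quot, Nat.card_congr (solCongr (quotEquiv n))]
  have hn0 : (0 : ℝ) < (n : ℕ) := by exact_mod_cast n.pos
  have e : ((n : ℕ) : ℝ) ^ (-(σ - 2)) = ((n : ℕ) : ℝ) ^ 2 * ((n : ℕ) : ℝ) ^ (-σ) := by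
    rw [← Real.rpow_natCast, ← Real.rpow_add hn0]
    congr 1
    push_cast
    ring
  rw [e]
  push_cast
  ring

lemma summable_iff (σ : ℝ) : Summable (zetaTerm ℚ G8 σ) ↔ Summable (fn (σ - 2)) := by
  rw [← (Equiv.ofBijective idl idl_bijective).summable_iff]
  have h1 : (zetaTerm ℚ G8 σ ∘ (Equiv.ofBijective idl idl_bijective))
      = fn (σ - 2) ∘ (fun n : ℕ+ => (n : ℕ)) := by
    funext n
    exact zetaTerm_idl σ n
  rw [h1]
  refine Function.Injective.summable_iff PNat.coe_injective ?_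
  intro x hx
  have : x = 0 := by
    by_contra hx0
    exact hx ⟨⟨x, Nat.pos_of_ne_zero hx0⟩, rfl⟩
  rw [this, fn, if_pos rfl]

lemma fn_mul (τ : ℝ) {m n : ℕ} (h : m.Coprime n) : fn τ (m * n) = fn τ m * fn τ n := by
  by_cases hm : m = 0
  · subst hm
    simp [fn]
  by_cases hn : n = 0
  · subst hn
    simp [fn]
  rw [fn_pos _ hm, fn_pos _ hn, fn_pos _ (Nat.mul_ne_zero hm hn), card_sol_mul h]
  push_cast
  rw [Real.mul_rpow (by positivity) (by positivity)]
  ring

lemma summable_fn {τ : ℝ} (hτ : 21 / 2 < τ) : Summable (fn τ) := by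
  have hp : ∀ p k : ℕ, p.Prime → fn τ (p ^ k)
      = (Nat.card (Sol G8 (ZMod (p ^ k))) : ℝ) * ((p ^ k : ℕ) : ℝ) ^ (-τ) := fun p k hp =>
    fn_pos τ (pow_ne_zero _ hp.ne_zero)
  obtain ⟨h1, h2⟩ := local_bound τ hτ (fun p k => Nat.card (Sol G8 (ZMod (p ^ k))))
    (fun p hp => by
      have : Fact p.Prime := ⟨hp⟩
      exact sol8_le_one (chain_zmod p 1))
    (fun p k hp => by
      have : Fact p.Prime := ⟨hp⟩
      exact sol8_le (chain_zmod p k))
  refine summable_of_multiplicative (fn τ) (by simp [fn]) ?_ (fn_nonneg τ) (fn_mul τ) ?_ ?_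
  · rw [fn_pos _ one_ne_zero, card_sol_one]
    simp
  · intro p hpp
    exact (h1 p hpp).congr fun k => (hp p (k + 1) hpp).symm
  · exact h2.congr fun p => tsum_congr fun k => (hp p (k + 1) p.2).symm

lemma not_summable_fn {τ : ℝ} (hτ : τ ≤ 21 / 2) : ¬ Summable (fn τ) := by
  intro h
  apply Nat.Primes.not_summable_one_div
  have hinj : Function.Injective (fun p : Nat.Primes => ((p : ℕ)) ^ 2) := by
    intro p r hpr
    have h1 : ((p : ℕ)) ^ 2 = ((r : ℕ)) ^ 2 := hpr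
    exact Subtype.ext (Nat.pow_left_injective (by norm_num : (2 : ℕ) ≠ 0) h1)
  refine Summable.of_nonneg_of_le (fun p => by positivity) (fun p => ?_) (h.comp_injective hinj)
  have hp : (p : ℕ).Prime := p.2
  have hF : Fact (p : ℕ).Prime := ⟨hp⟩
  have h1 := sol8_ge (chain_zmod (p : ℕ) 2)
  have hp0 : (0 : ℝ) < (p : ℕ) := by exact_mod_cast hp.pos
  have hp1 : (1 : ℝ) ≤ (p : ℕ) := by exact_mod_cast hp.one_lt.le
  show 1 / ((p : ℕ) : ℝ) ≤ fn τ (((p : ℕ)) ^ 2)
  rw [fn_pos _ (pow_ne_zero _ hp.ne_zero)]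
  have h2 : ((p : ℕ) : ℝ) ^ (20 : ℝ) ≤ (Nat.card (Sol G8 (ZMod ((p : ℕ) ^ 2))) : ℝ) := by
    have : (((p : ℕ) ^ 20 : ℕ) : ℝ) ≤ (Nat.card (Sol G8 (ZMod ((p : ℕ) ^ 2))) : ℝ) := by
      exact_mod_cast h1
    refine le_trans (le_of_eq ?_) this
    push_cast
    rw [← Real.rpow_natCast]
    norm_num
  have h3 : (((p : ℕ) ^ 2 : ℕ) : ℝ) ^ (-τ) = ((p : ℕ) : ℝ) ^ (-2 * τ) := by
    push_cast
    rw [← Real.rpow_natCast, ← Real.rpow_mul hp0.le]
    congr 1
    push_cast
    ring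
  rw [h3]
  calc 1 / ((p : ℕ) : ℝ) = ((p : ℕ) : ℝ) ^ (-1 : ℝ) := by
        rw [Real.rpow_neg_one, one_div]
    _ ≤ ((p : ℕ) : ℝ) ^ (20 + -2 * τ) := Real.rpow_le_rpow_of_exponent_le hp1 (by linarith)
    _ = ((p : ℕ) : ℝ) ^ (20 : ℝ) * ((p : ℕ) : ℝ) ^ (-2 * τ) := Real.rpow_add hp0 _ _
    _ ≤ _ := mul_le_mul_of_nonneg_right h2 (by positivity)

lemma abscissa_G8 : abscissa ℚ G8 = 25 / 2 := by
  have h : {σ : ℝ | Summable (zetaTerm ℚ G8 σ)} = Set.Ioi (25 / 2) := by
    ext σ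
    rw [Set.mem_ofPred_eq, summable_iff, Set.mem_Ioi]
    constructor
    · intro h
      by_contra hσ
      exact not_summable_fn (by linarith [not_lt.mp hσ]) h
    · intro h
      exact summable_fn (by linarith)
  rw [abscissa, h, csInf_Ioi]

/-- The class counting zeta function over `ℤ` of the graphical group scheme of the graph `G8` (the
complete graph on four vertices with a pendant edge at each vertex) has abscissa of convergence
`25/2`. Hence these abscissae are not always integers. -/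
theorem result :
    abscissa ℚ G8 = 25 / 2 ∧
    ¬ (∀ (n : ℕ) (Γ : SimpleGraph (Fin n)), ∃ m : ℤ, abscissa ℚ Γ = m) := by
  refine ⟨abscissa_G8, fun h => ?_⟩
  obtain ⟨m, hm⟩ := h 8 G8
  rw [abscissa_G8] at hm
  have h1 : ((25 : ℤ) : ℝ) = ((2 * m : ℤ) : ℝ) := by
    push_cast
    linarith
  have h2 : (25 : ℤ) = 2 * m := by exact_mod_cast h1
  omega

end Pool.Agent.Results.MP_2f42a7_al.HalfIntegralAbscissa
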